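import Pool.Agent.Helper57_K9.Stmts
import Pool.Agent.Helper92_KF.Sqb
import Pool.Agent.Helper25_KF.Idm
import Pool.Agent.Helper77_KF.Trc
import Pool.Agent.Helper94_PP.LemQ

/-!
# Squad K9, row SM2: the second main theorem
-/

open scoped BigOperators

set_option linter.unusedSectionVars false

noncomputable section

namespace Pool.Agent.PP.K9.H10

open Pool.Agent.Helper51_AWC Pool.Agent.Helper79_WRA Pool.Agent.PP Pool.Agent.PP.KF
open Pool.Agent.PP.KF.H71 Pool.Agent.PP.KF.H92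

attribute [local instance] Ideal.Quotient.field

/-! ## 1. Groups -/

section grp

variable {G : Type} [Group G]

/-- the parts of an element -/
theorem parts [Finite G] {ℓ : ℕ} (hℓ : ℓ.Prime) (g : G) {u : G} (hu : orderOf u = ℓ)
    (hug : u ∈ Subgroup.zpowers g) : ∃ y s : G, ∃ a m : ℕ, 0 < a ∧ orderOf y = ℓ ^ a ∧
      ¬ ℓ ∣ m ∧ s ^ m = 1 ∧ y * s = g ∧ Commute y s ∧ u ∈ Submonoid.powers y ∧
      y ∈ Subgroup.zpowers g ∧ s ∈ Subgroup.zpowers g := by
  have hpos : orderOf g ≠ 0 := (orderOf_pos g).ne'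
  obtain ⟨a, m, hm, ham⟩ := Nat.exists_eq_pow_mul_and_not_dvd hpos ℓ hℓ.ne_one
  have hcop : Nat.Coprime (ℓ ^ a) m :=
    Nat.Coprime.pow_left a ((Nat.Prime.coprime_iff_not_dvd hℓ).2 hm)
  obtain ⟨N, hN1, hN2⟩ := Nat.chineseRemainder hcop 1 0
  obtain ⟨N', hN1', hN2'⟩ := Nat.chineseRemainder hcop 0 1
  have hmN : m ∣ N := (Nat.modEq_zero_iff_dvd).1 hN2
  have hlN' : ℓ ^ a ∣ N' := (Nat.modEq_zero_iff_dvd).1 hN1'
  have hy : (g ^ N) ^ ℓ ^ a = 1 := by
    rw [← pow_mul]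
    apply orderOf_dvd_iff_pow_eq_one.1
    rw [ham, mul_comm]
    exact Nat.mul_dvd_mul hmN dvd_rfl
  have hs : (g ^ N') ^ m = 1 := by
    rw [← pow_mul]
    apply orderOf_dvd_iff_pow_eq_one.1
    rw [ham]
    exact Nat.mul_dvd_mul hlN' dvd_rfl
  have hys : g ^ N * g ^ N' = g := by
    rw [← pow_add]
    have h1 : N + N' ≡ 1 [MOD orderOf g] := by
      rw [ham]
      refine (Nat.modEq_and_modEq_iff_modEq_mul hcop).1 ⟨?_, ?_⟩
      · exact hN1.add hN1'
      · exact hN2.add hN2'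
    have h2 := pow_eq_pow_iff_modEq.2 h1
    rw [pow_one] at h2
    exact h2
  have hlg : ℓ ∣ orderOf g := by
    rw [← hu]
    obtain ⟨k, hk⟩ := (mem_powers_iff_mem_zpowers.2 hug)
    rw [← hk]
    exact orderOf_pow_dvd k
  have ha0 : a ≠ 0 := by
    rintro rfl
    rw [pow_zero, one_mul] at ham
    rw [ham] at hlg
    exact hm hlg
  have huy : u ∈ Submonoid.powers (g ^ N) := by
    obtain ⟨k, hk⟩ := (mem_powers_iff_mem_zpowers.2 hug)
    refine ⟨k, ?_⟩
    change (g ^ N) ^ k = u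
    have h1 : (g ^ N) ^ k = u ^ N := by
      rw [← hk, ← pow_mul, ← pow_mul, mul_comm]
    rw [h1]
    have h2 : N ≡ 1 [MOD orderOf u] := by
      rw [hu]
      exact hN1.of_dvd (dvd_pow_self ℓ ha0)
    have h3 := pow_eq_pow_iff_modEq.2 h2
    rwa [pow_one] at h3
  obtain ⟨b, -, hb⟩ := (Nat.dvd_prime_pow hℓ).1 (orderOf_dvd_of_pow_eq_one hy)
  refine ⟨g ^ N, g ^ N', b, m, ?_, hb, hm, hs, hys, ?_, huy, ?_, ?_⟩
  · rcases Nat.eq_zero_or_pos b with h0 | h0
    · exfalso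
      rw [h0, pow_zero, orderOf_eq_one_iff] at hb
      obtain ⟨k, hk⟩ := huy
      rw [hb] at hk
      have hk' : (1 : G) ^ k = u := hk
      rw [one_pow] at hk'
      rw [← hk', orderOf_one] at hu
      exact hℓ.ne_one hu.symm
    · exact h0
  · exact (Commute.refl g).pow_pow N N'
  · exact ⟨(N : ℤ), zpow_natCast g N⟩
  · exact ⟨(N' : ℤ), zpow_natCast g N'⟩

/-- a nontrivial power of `y` has a power equal to `u` -/
theorem pow_u {ℓ : ℕ} (hℓ : ℓ.Prime) {y u : G} {a : ℕ} (hy : orderOf y = ℓ ^ a)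
    (hu : orderOf u = ℓ) (huy : u ∈ Submonoid.powers y) {k : ℕ} (hk : 0 < k) (hk' : k < ℓ ^ a) :
    ∃ t : ℕ, (y ^ k) ^ t = u := by
  obtain ⟨r, hr⟩ := huy
  have hr' : y ^ r = u := hr
  obtain ⟨j, k', hk1, hk2⟩ := Nat.exists_eq_pow_mul_and_not_dvd hk.ne' ℓ hℓ.ne_one
  -- `j < a`
  have hja : j < a := by
    by_contra h
    have h1 : ℓ ^ a ∣ k := by
      rw [hk2]
      exact (pow_dvd_pow ℓ (not_lt.1 h)).mul_right _
    exact absurd (Nat.le_of_dvd hk h1) (not_le.2 hk')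
  -- `ℓ ^ (a - 1) ∣ r`
  have hr2 : ℓ ^ (a - 1) ∣ r := by
    have h1 : y ^ (r * ℓ) = 1 := by
      rw [pow_mul, hr', ← hu, pow_orderOf_eq_one]
    have h2 : ℓ ^ a ∣ r * ℓ := by
      rw [← hy]
      exact orderOf_dvd_of_pow_eq_one h1
    obtain ⟨d, rfl⟩ := Nat.exists_eq_add_of_lt (Nat.zero_lt_of_lt hja)
    have e : 0 + d + 1 - 1 = d := by omega
    rw [e]
    rw [pow_succ] at h2
    have e2 : 0 + d = d := by omega
    rw [e2] at h2
    exact Nat.dvd_of_mul_dvd_mul_right hℓ.pos h2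
  have hj : ℓ ^ j ∣ r := (pow_dvd_pow ℓ (by omega)).trans hr2
  obtain ⟨r', rfl⟩ := hj
  -- `y ^ (ℓ ^ j)` is a power of `y ^ k`
  have hcop : Nat.Coprime k' (orderOf (y ^ ℓ ^ j)) := by
    have h1 : orderOf (y ^ ℓ ^ j) ∣ ℓ ^ a := by
      rw [← hy]
      exact orderOf_pow_dvd _
    have h2 : Nat.Coprime k' (ℓ ^ a) :=
      Nat.Coprime.pow_right a ((Nat.Prime.coprime_iff_not_dvd hℓ).2 hk1).symm
    exact h2.coprime_dvd_right h1
  obtain ⟨t, ht⟩ := exists_pow_eq_self_of_coprime hcop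
  refine ⟨t * r', ?_⟩
  rw [hk2, pow_mul y (ℓ ^ j) k', pow_mul _ t r', ht, ← pow_mul, hr']

/-- representatives for the conjugation by a cyclic group which acts freely -/
theorem exists_reps {F : Type} [Field F] [Fintype G] (y : G) (q : ℕ) (hq : 0 < q)
    (hy : y ^ q = 1) (α : G → F) (hα : ∀ x, ∀ i : ℕ, α ((y ^ i)⁻¹ * x * y ^ i) = α x)
    (hfree : ∀ x, α x ≠ 0 → ∀ k, 0 < k → k < q → ¬ Commute (y ^ k) x) :
    ∃ c : G → F, ∀ x, α x = ∑ i ∈ Finset.range q, c ((y ^ i)⁻¹ * x * y ^ i) := by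
  classical
  let e := Fintype.equivFin G
  let X : G → ℕ → G := fun x i => (y ^ i)⁻¹ * x * y ^ i
  have hX : ∀ x i j, X (X x i) j = X x (i + j) := by
    intro x i j
    simp only [X]
    rw [pow_add]
    group
  have hXm : ∀ x i, X x i = X x (i % q) := by
    intro x i
    simp only [X]
    rw [pow_eq_pow_mod i hy]
  refine ⟨fun x => if ∀ i < q, e x ≤ e (X x i) then α x else 0, fun x => ?_⟩
  change α x = ∑ i ∈ Finset.range q, if ∀ j < q, e (X x i) ≤ e (X (X x i) j) then α (X x i) else 0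
  have hαX : ∀ i, α (X x i) = α x := fun i => hα x i
  by_cases h0 : α x = 0
  · rw [h0]
    symm
    apply Finset.sum_eq_zero
    intro i _
    rw [hαX, h0, ite_self]
  · obtain ⟨i₀, hi₀, hmin⟩ := Finset.exists_min_image (Finset.range q) (fun i => e (X x i))
      ⟨0, Finset.mem_range.2 hq⟩
    rw [Finset.mem_range] at hi₀
    have hmin' : ∀ i, e (X x i₀) ≤ e (X x i) := by
      intro i
      rw [hXm x i]
      exact hmin _ (Finset.mem_range.2 (Nat.mod_lt _ hq))
    rw [Finset.sum_eq_single i₀]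
    · rw [if_pos, hαX]
      intro j _
      rw [hX]
      exact hmin' _
    · intro i hi hne
      rw [Finset.mem_range] at hi
      rw [if_neg]
      intro hcon
      -- `X x i₀` is `X (X x i) j` for some `j`
      have h1 : e (X x i) ≤ e (X x i₀) := by
        have h2 := hcon ((i₀ + (q - i)) % q) (Nat.mod_lt _ hq)
        rw [hX, hXm x (i + _)] at h2
        have h3 : (i + (i₀ + (q - i)) % q) % q = i₀ := by
          rw [Nat.add_mod_mod]
          have : i + (i₀ + (q - i)) = i₀ + q := by omega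
          rw [this, Nat.add_mod_right, Nat.mod_eq_of_lt hi₀]
        rwa [h3] at h2
      have h4 : X x i = X x i₀ := e.injective (le_antisymm h1 (hmin' i))
      -- contradiction
      have key : ∀ i j, i < j → j < q → X x i = X x j → False := by
        intro i j hij hj h
        apply hfree x h0 (j - i) (by omega) (by omega)
        have h5 : j = (j - i) + i := by omega
        simp only [X] at h
        rw [h5, pow_add] at h
        have h6 : x = (y ^ (j - i))⁻¹ * x * y ^ (j - i) := by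
          have h7 : (y ^ i) * ((y ^ i)⁻¹ * x * y ^ i) * (y ^ i)⁻¹ = x := by group
          rw [h] at h7
          have h10 : y ^ i * ((y ^ (j - i) * y ^ i)⁻¹ * x * (y ^ (j - i) * y ^ i)) * (y ^ i)⁻¹ =
              (y ^ (j - i))⁻¹ * x * y ^ (j - i) := by group
          exact h7.symm.trans h10
        have h9 : y ^ (j - i) * x = x * y ^ (j - i) := by
          conv_lhs => rw [h6]
          group
        exact h9
      rcases lt_or_gt_of_ne hne with h5 | h5
      · exact key i i₀ h5 hi₀ h4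
      · exact key i₀ i h5 hi h4.symm
    · intro h
      exact absurd (Finset.mem_range.2 hi₀) h

end grp

/-! ## 2. The group ring -/

section ring

variable {F : Type} [Field F] {G : Type} [Group G] [Fintype G] [DecidableEq G]

theorem dl_dl (z z' : G) : mulF (dl F z) (dl F z') = dl F (z * z') := by
  funext x
  rw [H75.mulF_dl_left]
  unfold dl
  by_cases h : x = z * z'
  · rw [if_pos h, if_pos (by rw [h, inv_mul_cancel_left])]
  · rw [if_neg h, if_neg]
    intro h'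
    apply h
    rw [← h', mul_inv_cancel_left]

theorem Km_dl_pow (y : G) (k : ℕ) :
    Km (dl F y) (dl F y⁻¹) ^ k = Km (dl F (y ^ k)) (dl F (y ^ k)⁻¹) := by
  induction k with
  | zero => rw [pow_zero, pow_zero, inv_one, Km_one]
  | succ k ih => rw [pow_succ, ih, Km_mul, dl_dl, dl_dl, pow_succ, mul_inv_rev]

theorem dl_comm' (u : G) (b : Cu u → F) (h : IsCl b) {z : G} (hz : z ∈ Cu u) :
    mulF (PP.ext0 (Cu u) b) (dl F z) = mulF (dl F z) (PP.ext0 (Cu u) b) := by
  funext g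
  rw [H75.mulF_dl_left, H75.mulF_dl_right,
    ← e0_conj u b h z⁻¹ ((Cu u).inv_mem hz) (g * z⁻¹)]
  congr 1
  group

/-- the sum over the group of a function supported on the centraliser -/
theorem sum_e0 (u : G) (b : Cu u → F) (χ : G → F) :
    ∑ x : G, PP.ext0 (Cu u) b x * χ x = ∑ᶠ c : Cu u, b c * χ c := by
  classical
  rw [finsum_eq_sum_of_fintype]
  have e1 : ∑ c : Cu u, b c * χ c = ∑ c : Cu u, PP.ext0 (Cu u) b c * χ c :=
    Finset.sum_congr rfl fun c _ => by rw [e0_app]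
  rw [e1]
  have e2 : ∑ x : G, PP.ext0 (Cu u) b x * χ x =
      ∑ x ∈ Finset.univ.filter (fun x : G => x ∈ Cu u), PP.ext0 (Cu u) b x * χ x := by
    symm
    apply Finset.sum_subset (Finset.filter_subset _ _)
    intro t _ ht
    rw [Finset.mem_filter, not_and] at ht
    rw [e0_supp u b t (ht (Finset.mem_univ _)), zero_mul]
  rw [e2]
  apply Finset.sum_subtype
  intro t
  rw [Finset.mem_filter]
  exact ⟨fun h => h.2, fun h => ⟨Finset.mem_univ _, h⟩⟩

end ring

section cplx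

variable {G : Type} [Group G] [Fintype G] [DecidableEq G]

theorem chv_left (u g : G) (bh : Cu u → ℂ) (χ : G → ℂ) :
    chv (mulF (dl ℂ g) (PP.ext0 (Cu u) bh)) χ = gbv (Cu u) g bh χ := by
  unfold chv gbv
  rw [finsum_eq_sum_of_fintype, ← sum_e0 u bh (fun x => χ (g * x)),
    ← Equiv.sum_comp (Equiv.mulLeft g)]
  refine Finset.sum_congr rfl fun x _ => ?_
  rw [Equiv.coe_mulLeft, H75.mulF_dl_left, inv_mul_cancel_left]

theorem chv_right (u g : G) (bh : Cu u → ℂ) (χ : G → ℂ) :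
    chv (mulF (PP.ext0 (Cu u) bh) (dl ℂ g⁻¹)) χ = ∑ᶠ c : Cu u, bh c * χ (c * g⁻¹) := by
  unfold chv
  rw [finsum_eq_sum_of_fintype, ← sum_e0 u bh (fun x => χ (x * g⁻¹)),
    ← Equiv.sum_comp (Equiv.mulRight g⁻¹)]
  refine Finset.sum_congr rfl fun x _ => ?_
  rw [Equiv.coe_mulRight, H75.mulF_dl_right, inv_inv, inv_mul_cancel_right]

theorem eh_conj {M : Ideal (integralClosure ℤ ℂ)} [M.IsMaximal] {C : Type} [Group C] [Finite C]
    (b : C → FF M) (c : C) : starRingEnd ℂ (eh M b c) = eh M b c⁻¹ := by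
  unfold eh
  have := Fintype.ofFinite C
  have hfin : (IrrE M b).Finite := irr_finite'.subset fun θ hθ => hθ.1
  rw [map_mul, map_inv₀, Complex.conj_natCast]
  congr 1
  rw [finsum_mem_eq_finite_toFinset_sum _ hfin, finsum_mem_eq_finite_toFinset_sum _ hfin, map_sum]
  refine Finset.sum_congr rfl fun θ hθ => ?_
  have hθ' : θ ∈ Irr C := ((Set.Finite.mem_toFinset hfin).1 hθ).1
  rw [map_mul, H94.irr_star hθ', H94.irr_star hθ', inv_one, inv_inv]

theorem gbv_conj {M : Ideal (integralClosure ℤ ℂ)} [M.IsMaximal] (u g : G) (b : Cu u → FF M)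
    {χ : G → ℂ} (hχ : χ ∈ Irr G) :
    starRingEnd ℂ (gbv (Cu u) g (eh M b) χ) = ∑ᶠ c : Cu u, eh M b c * χ (c * g⁻¹) := by
  classical
  unfold gbv
  rw [finsum_eq_sum_of_fintype, finsum_eq_sum_of_fintype, map_sum,
    ← Equiv.sum_comp (Equiv.inv (Cu u))]
  refine Finset.sum_congr rfl fun c _ => ?_
  rw [map_mul, eh_conj, H94.irr_star hχ]
  simp [mul_inv_rev]

end cplx

/-! ## 3. The theorem -/

theorem part1 (trb : TrbStmt) (ℓ : ℕ) [Fact ℓ.Prime] (M : Ideal (integralClosure ℤ ℂ))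
    [M.IsMaximal] (hM : (ℓ : integralClosure ℤ ℂ) ∈ M) (G : Type) [Group G] [Finite G] (u : G)
    (hu : orderOf u = ℓ) (g : G) (hg : g ∈ Cu u) (hug : u ∈ Subgroup.zpowers g)
    (b : Cu u → FF M) (hb : IsIdem b) (e : G → FF M) (he : IsIdem e)
    (heb : mulF (fun t : Cu u => e t) b = b) :
    ∀ χ ∈ Irr G, χ ∉ IrrE M e → gbv (Cu u) g (eh M b) χ = 0 := by
  classical
  have hℓ : ℓ.Prime := Fact.out
  have := Fintype.ofFinite G
  obtain ⟨y, s, a, m, ha, hy, hm, hs, hys, hcomm, huy, hyg, hsg⟩ := parts hℓ g hu hug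
  have hgC : Subgroup.zpowers g ≤ Cu u := by
    rw [Subgroup.zpowers_le]
    exact hg
  have hyC : y ∈ Cu u := hgC hyg
  have hsC : s ∈ Cu u := hgC hsg
  have hq : 0 < ℓ ^ a := pow_pos hℓ.pos a
  have hyq : y ^ ℓ ^ a = 1 := by rw [← hy, pow_orderOf_eq_one]
  obtain ⟨h1, h2, -⟩ := KF.H25.idm M (Cu u) b hb
  obtain ⟨k1, k2, k3⟩ := KF.H25.idm M G e he
  have hone : ∀ {F : Type} [Field F] (a : G → F), mulF a (dl F (1 : G)) = a := by
    intro F _ a
    rw [← H20.mulF_comm_of_cl dl_cl, dl_one_mulF]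
  -- over the complex numbers
  set E : G → ℂ := eh M e with hE
  set bh : Cu u → ℂ := eh M b with hbh
  set B : G → ℂ := PP.ext0 (Cu u) bh with hB
  set f : G → ℂ := dl ℂ (1 : G) - E with hf
  have hfc : IsCl f := H20.isCl_sub dl_cl k2.1
  have hff : mulF f f = f := by
    rw [hf, H20.mulF_sub, hone, H20.sub_mulF, dl_one_mulF, k2.2, sub_self, sub_zero]
  have hBB : mulF B B = B := e0_idem u bh h2.2
  have hBz : ∀ z ∈ Cu u, mulF B (dl ℂ z) = mulF (dl ℂ z) B := fun z hz => dl_comm' u bh h2.1 hz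
  have hfB : mulF (mulF f B) (mulF f B) = mulF f B := cl_idem hfc hff hBB
  set P : Matrix G G ℂ := Km (mulF f B) B with hP
  set U : Matrix G G ℂ := Km (dl ℂ y) (dl ℂ y⁻¹) with hU
  set V : Matrix G G ℂ := Km (dl ℂ s) (dl ℂ s⁻¹) with hV
  -- commutation
  have hzP : ∀ z ∈ Cu u, Km (dl ℂ z) (dl ℂ z⁻¹) * P = P * Km (dl ℂ z) (dl ℂ z⁻¹) := by
    intro z hz
    rw [hP, Km_mul, Km_mul, ← hBz z⁻¹ ((Cu u).inv_mem hz), H20.mulF_assoc f B, hBz z hz,
      ← H20.mulF_assoc, ← H20.mulF_assoc, ← H20.mulF_comm_of_cl hfc]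
  have hPP : P * P = P := by
    rw [hP, Km_mul, hfB, hBB]
  have hUV : U * V = Km (dl ℂ g) (dl ℂ g⁻¹) := by
    rw [hU, hV, Km_mul, dl_dl, dl_dl, ← mul_inv_rev, hys]
  have hVU : U * V = V * U := by
    rw [hUV, hU, hV, Km_mul, dl_dl, dl_dl, ← mul_inv_rev, ← hcomm.eq, hys]
  have hUq : U ^ ℓ ^ a = 1 := by
    rw [hU, Km_dl_pow, hyq, inv_one, Km_one]
  have hVm : V ^ m = 1 := by
    rw [hV, Km_dl_pow, hs, inv_one, Km_one]
  -- the reductions
  set f' : G → FF M := dl (FF M) (1 : G) - e with hf'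
  set B' : G → FF M := PP.ext0 (Cu u) b with hB'
  have hfr : ∀ g, f g ∈ RM M ∧ rr M (f g) = f' g := by
    intro g
    rw [hf, hf', Pi.sub_apply, Pi.sub_apply]
    refine ⟨(RM M).sub_mem (dl_RM _ _).1 (k1 g).1, ?_⟩
    rw [rr_sub (dl_RM _ _).1 (k1 g).1, (dl_RM _ _).2, (k1 g).2]
  have hBr : ∀ g, B g ∈ RM M ∧ rr M (B g) = B' g := by
    intro g
    by_cases hg : g ∈ Cu u
    · rw [hB, hB', e0_app u bh ⟨g, hg⟩, e0_app u b ⟨g, hg⟩]
      exact h1 _
    · rw [hB, hB', e0_supp u bh g hg, e0_supp u b g hg]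
      exact ⟨(RM M).zero_mem, rr_zero⟩
  have hff' : (fun g => rr M (f g)) = f' := funext fun g => (hfr g).2
  have hBB' : (fun g => rr M (B g)) = B' := funext fun g => (hBr g).2
  have hfBr : ∀ g, mulF f B g ∈ RM M := fun g =>
    (mulF_RM (fun g => (hfr g).1) (fun g => (hBr g).1) g).1
  have hfBr' : (fun g => rr M (mulF f B g)) = mulF f' B' := by
    funext g
    rw [(mulF_RM (fun g => (hfr g).1) (fun g => (hBr g).1) g).2, hff', hBB']
  have hdlr : ∀ z : G, (fun g => rr M (dl ℂ z g)) = dl (FF M) z := fun z =>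
    funext fun g => (dl_RM z g).2
  have hPR : ∀ i j, P i j ∈ RM M := fun i j => Km_RM hfBr (fun g => (hBr g).1) i j
  have hzR : ∀ z : G, ∀ i j, Km (dl ℂ z) (dl ℂ z⁻¹) i j ∈ RM M := fun z i j =>
    Km_RM (fun g => (dl_RM z g).1) (fun g => (dl_RM z⁻¹ g).1) i j
  have hPm : P.map (rr M) = Km (mulF f' B') B' := by
    rw [hP, Km_map hfBr (fun g => (hBr g).1), hfBr', hBB']
  have hUm : U.map (rr M) = Km (dl (FF M) y) (dl (FF M) y⁻¹) := by
    rw [hU, Km_map (fun g => (dl_RM y g).1) (fun g => (dl_RM y⁻¹ g).1), hdlr, hdlr]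
  have key := trb ℓ M hM G P U V a m ha hm hPR (hzR y) (hzR s) hPP hUq hVm (hzP y hyC)
    (hzP s hsC) hVU ?_
  · -- the sum is a trace
    have hUVP : U * V * P = Km (mulF (dl ℂ g) (mulF f B)) (mulF B (dl ℂ g⁻¹)) := by
      rw [hUV, hP, Km_mul]
    rw [hUVP] at key
    have htr : (Km (mulF (dl ℂ g) (mulF f B)) (mulF B (dl ℂ g⁻¹))).trace =
        ∑ᶠ χ ∈ Irr G, chv (mulF (dl ℂ g) (mulF f B)) χ * chv (mulF B (dl ℂ g⁻¹)) χ := by
      rw [KF.trc G, finsum_eq_sum_of_fintype, Matrix.trace]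
      refine Finset.sum_congr rfl fun x _ => ?_
      rw [Matrix.diag_apply, finsum_eq_sum_of_fintype, Km_apply]
    rw [htr] at key
    have hgfB : mulF (dl ℂ g) (mulF f B) = mulF f (mulF (dl ℂ g) B) := by
      rw [← H20.mulF_assoc, ← H20.mulF_comm_of_cl hfc, H20.mulF_assoc]
    have q1 : ∀ χ ∈ Irr G, χ ∉ IrrE M e → chv (mulF (dl ℂ g) (mulF f B)) χ *
        chv (mulF B (dl ℂ g⁻¹)) χ = ((Complex.normSq (gbv (Cu u) g bh χ) : ℝ) : ℂ) := by
      intro χ hχ hne
      have hr : res M e χ ≠ 1 := fun h => hne ⟨hχ, h⟩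
      have e1 : chv (mulF (dl ℂ g) (mulF f B)) χ = gbv (Cu u) g bh χ := by
        rw [hgfB, hf, H20.sub_mulF, dl_one_mulF, chv_sub, (k3 χ hχ _).2 hr, sub_zero, hB,
          chv_left]
      have e2 : chv (mulF B (dl ℂ g⁻¹)) χ = starRingEnd ℂ (gbv (Cu u) g bh χ) := by
        rw [hB, chv_right, hbh, gbv_conj u g b hχ]
      rw [e1, e2, Complex.mul_conj]
    have q2 : ∀ χ ∈ Irr G, χ ∈ IrrE M e → chv (mulF (dl ℂ g) (mulF f B)) χ *
        chv (mulF B (dl ℂ g⁻¹)) χ = 0 := by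
      intro χ hχ hin
      have e1 : chv (mulF (dl ℂ g) (mulF f B)) χ = 0 := by
        rw [hgfB, hf, H20.sub_mulF, dl_one_mulF, chv_sub, (k3 χ hχ _).1 hin.2, sub_self]
      rw [e1, zero_mul]
    let r : (G → ℂ) → ℝ := fun χ => if χ ∈ IrrE M e then 0 else
      Complex.normSq (gbv (Cu u) g bh χ)
    have hr0 : ∀ χ, 0 ≤ r χ := by
      intro χ
      simp only [r]
      split_ifs
      · exact le_rfl
      · exact Complex.normSq_nonneg _
    have hsum : ∑ χ ∈ (irr_finite' (G := G)).toFinset, r χ = 0 := by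
      rw [finsum_mem_eq_finite_toFinset_sum _ (irr_finite' (G := G))] at key
      have e1 : ((∑ χ ∈ (irr_finite' (G := G)).toFinset, r χ : ℝ) : ℂ) = 0 := by
        rw [← key, Complex.ofReal_sum]
        refine Finset.sum_congr rfl fun χ hχ => ?_
        have hχ' : χ ∈ Irr G := (Set.Finite.mem_toFinset _).1 hχ
        by_cases hin : χ ∈ IrrE M e
        · rw [q2 χ hχ' hin]
          simp only [r]
          rw [if_pos hin, Complex.ofReal_zero]
        · rw [q1 χ hχ' hin]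
          simp only [r]
          rw [if_neg hin]
      exact_mod_cast e1
    intro χ hχ hne
    have e1 := (Finset.sum_eq_zero_iff_of_nonneg fun χ _ => hr0 χ).1 hsum χ
      ((Set.Finite.mem_toFinset _).2 hχ)
    simp only [r] at e1
    rw [if_neg hne] at e1
    exact Complex.normSq_eq_zero.1 e1
  -- the reduction is free
  intro v hv hv'
  rw [hPm, Km_mulVec] at hv
  rw [hUm, Km_mulVec] at hv'
  set al : G → FF M := mulF f' B' with hal
  have hfc' : IsCl f' := H20.isCl_sub dl_cl he.1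
  have hff2 : mulF f' f' = f' := by
    rw [hf', H20.mulF_sub, hone, H20.sub_mulF, dl_one_mulF, he.2, sub_self, sub_zero]
  have hBB2 : mulF B' B' = B' := e0_idem u b hb.2
  have haa : mulF al al = al := cl_idem hfc' hff2 hBB2
  have hBz' : ∀ z ∈ Cu u, mulF B' (dl (FF M) z) = mulF (dl (FF M) z) B' := fun z hz =>
    dl_comm' u b hb.1 hz
  have hav : mulF al v = v := by
    calc mulF al v = mulF al (mulF al (mulF v B')) := by rw [hv]
      _ = mulF al (mulF v B') := by rw [← H20.mulF_assoc, haa]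
      _ = v := hv
  have hvB : mulF v B' = v := by
    calc mulF v B' = mulF (mulF al (mulF v B')) B' := by rw [hv]
      _ = mulF al (mulF v (mulF B' B')) := by
          rw [H20.mulF_assoc al (mulF v B') B', H20.mulF_assoc v B' B']
      _ = v := by rw [hBB2, hv]
  -- `v` commutes with the powers of `y`
  have hvy : ∀ x, v (y⁻¹ * x * y) = v x := by
    intro x
    have h3 := congrFun hv' x
    rw [H75.mulF_dl_left, H75.mulF_dl_right, inv_inv] at h3
    exact h3
  have hvyi : ∀ (i : ℕ) (x : G), v ((y ^ i)⁻¹ * x * y ^ i) = v x := by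
    intro i
    induction i with
    | zero => intro x; simp
    | succ i ih =>
      intro x
      have e1 : (y ^ (i + 1))⁻¹ * x * y ^ (i + 1) = y⁻¹ * ((y ^ i)⁻¹ * x * y ^ i) * y := by
        rw [pow_succ]
        group
      rw [e1, hvy, ih]
  have hali : ∀ (x : G) (i : ℕ), al ((y ^ i)⁻¹ * x * y ^ i) = al x := by
    intro x i
    have hz : y ^ i ∈ Cu u := (Cu u).pow_mem hyC i
    have q : mulF (dl (FF M) (y ^ i)) (mulF al (dl (FF M) (y ^ i)⁻¹)) = al := by
      rw [hal, H20.mulF_assoc, hBz' _ ((Cu u).inv_mem hz), ← H20.mulF_assoc f',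
        H20.mulF_comm_of_cl hfc', H20.mulF_assoc, ← H20.mulF_assoc (dl (FF M) (y ^ i)), dl_dl,
        mul_inv_cancel, dl_one_mulF, H20.mulF_comm_of_cl hfc']
    have q1 := congrFun q x
    rw [H75.mulF_dl_left, H75.mulF_dl_right, inv_inv] at q1
    exact q1
  have haC : ∀ g ∈ Cu u, al g = 0 := al_zero u b e he.1 hb.1 heb
  obtain ⟨c, hc⟩ := exists_reps y (ℓ ^ a) hq hyq al hali (by
    intro x hx k hk hk' hcom
    apply hx
    apply haC
    obtain ⟨t, ht⟩ := pow_u hℓ hy hu huy hk hk'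
    rw [Subgroup.mem_centralizer_singleton_iff]
    have h4 : Commute ((y ^ k) ^ t) x := hcom.pow_left t
    rw [ht] at h4
    exact h4.symm)
  set w0 : G → FF M := mulF c v with hw0
  have hUk : ∀ k : ℕ, (U.map (rr M)) ^ k = Km (dl (FF M) (y ^ k)) (dl (FF M) (y ^ k)⁻¹) := by
    intro k
    rw [hUm, Km_dl_pow]
  have hvw : v = ∑ i ∈ Finset.range (ℓ ^ a), ((U.map (rr M)) ^ i).mulVec w0 := by
    funext x
    rw [Finset.sum_apply]
    have e1 : ∀ i, ((U.map (rr M)) ^ i).mulVec w0 x =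
        ∑ t : G, c ((y ^ i)⁻¹ * t * y ^ i) * v (t⁻¹ * x) := by
      intro i
      rw [hUk, Km_mulVec, H75.mulF_dl_left, H75.mulF_dl_right, inv_inv, hw0]
      simp only [mulF, finsum_eq_sum_of_fintype]
      rw [← Equiv.sum_comp (MulAut.conj (y ^ i)⁻¹).toEquiv]
      refine Finset.sum_congr rfl fun t _ => ?_
      change c ((y ^ i)⁻¹ * t * ((y ^ i)⁻¹)⁻¹) *
        v (((y ^ i)⁻¹ * t * ((y ^ i)⁻¹)⁻¹)⁻¹ * ((y ^ i)⁻¹ * x * y ^ i)) = _
      rw [inv_inv]
      have e2 : ((y ^ i)⁻¹ * t * y ^ i)⁻¹ * ((y ^ i)⁻¹ * x * y ^ i) =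
          (y ^ i)⁻¹ * (t⁻¹ * x) * y ^ i := by group
      rw [e2, hvyi]
    rw [Finset.sum_congr rfl fun i _ => e1 i, Finset.sum_comm]
    conv_lhs => rw [← hav]
    simp only [mulF, finsum_eq_sum_of_fintype]
    refine Finset.sum_congr rfl fun t _ => ?_
    rw [hc t, Finset.sum_mul]
  have hPPm : P.map (rr M) * P.map (rr M) = P.map (rr M) := by
    rw [← map_rr_mul hPR hPR, hPP]
  have hUPm : ∀ i : ℕ, (U.map (rr M)) ^ i * P.map (rr M) = P.map (rr M) * (U.map (rr M)) ^ i := by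
    have h0 : U.map (rr M) * P.map (rr M) = P.map (rr M) * U.map (rr M) := by
      rw [← map_rr_mul hPR (hzR y), ← map_rr_mul (hzR y) hPR, hzP y hyC]
    intro i
    exact (Commute.pow_left h0 i)
  refine ⟨(P.map (rr M)).mulVec w0, ?_, ?_⟩
  · rw [Matrix.mulVec_mulVec, hPPm]
  · have e3 : ∀ i, ((U.map (rr M)) ^ i).mulVec ((P.map (rr M)).mulVec w0) =
        (P.map (rr M)).mulVec (((U.map (rr M)) ^ i).mulVec w0) := by
      intro i
      rw [Matrix.mulVec_mulVec, hUPm, ← Matrix.mulVec_mulVec]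
    rw [Finset.sum_congr rfl fun i _ => e3 i, ← Matrix.mulVec_sum, ← hvw, hPm, Km_mulVec, hv]

theorem sm2 (trb : TrbStmt) : Sm2Stmt := by
  intro ℓ _ M _ hM G _ _ u hu g hg hug b hb e he
  refine ⟨part1 trb ℓ M hM G u hu g hg hug b hb e he, ?_⟩
  intro heb χ hχ
  classical
  have := Fintype.ofFinite G
  set e' : G → FF M := dl (FF M) (1 : G) - e with he'
  have hone : ∀ a : G → FF M, mulF a (dl (FF M) (1 : G)) = a := by
    intro a
    rw [← H20.mulF_comm_of_cl dl_cl, dl_one_mulF]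
  have hid : IsIdem e' := by
    refine ⟨H20.isCl_sub dl_cl he.1, ?_⟩
    rw [he', H20.mulF_sub, hone, H20.sub_mulF, dl_one_mulF, he.2, sub_self, sub_zero]
  have hee : mulF e e' = 0 := by
    rw [he', H20.mulF_sub, hone, he.2, sub_self]
  have heb' : mulF (fun t : Cu u => e' t) b = b := by
    have h2 : (fun t : Cu u => e' t) = dl (FF M) (1 : Cu u) - (fun t : Cu u => e t) := by
      funext t
      simp only [he', Pi.sub_apply]
      congr 1
      unfold dl
      by_cases ht : t = 1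
      · rw [if_pos ht, if_pos (by rw [ht]; rfl)]
      · rw [if_neg ht, if_neg]
        exact fun h' => ht (Subtype.ext h')
    rw [h2, H20.sub_mulF, heb, sub_zero, dl_one_mulF]
  refine part1 trb ℓ M hM G u hu g hg hug b hb e' hid heb' χ hχ.1 ?_
  intro hin
  have h3 := H75.res_mulF hχ.1 he.1 hid.1
  rw [hee, H75.res_zero, hχ.2, hin.2, mul_one] at h3
  exact zero_ne_one h3

end Pool.Agent.PP.K9.H10
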